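import Mathlib

/-!
# Heights of some ideals of `k[x, y, z]`
-/

set_option autoImplicit false

open MvPolynomial

namespace Pool.Agent.V7H49.SYL

variable {k : Type*} [Field k]

/-- the inclusion `k → k[x][y][z]` -/
noncomputable def emb (k : Type*) [Field k] : k →+* Polynomial (Polynomial (Polynomial k)) :=
  (Polynomial.C : Polynomial (Polynomial k) →+* Polynomial (Polynomial (Polynomial k))).comp
    ((Polynomial.C : Polynomial k →+* Polynomial (Polynomial k)).comp
      (Polynomial.C : k →+* Polynomial k))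

/-- the variables of `k[x][y][z]` -/
noncomputable def vars (k : Type*) [Field k] : Fin 3 → Polynomial (Polynomial (Polynomial k)) :=
  ![Polynomial.C (Polynomial.C Polynomial.X), Polynomial.C Polynomial.X, Polynomial.X]

/-- the ring homomorphism `k[x, y, z] → k[x][y][z]` -/
noncomputable def Phi (k : Type*) [Field k] :
    MvPolynomial (Fin 3) k →+* Polynomial (Polynomial (Polynomial k)) :=
  MvPolynomial.eval₂Hom (emb k) (vars k)

theorem Phi_monomial (m : Fin 3 →₀ ℕ) (c : k) :
    Phi k (monomial m c) =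
      Polynomial.monomial (m 2) (Polynomial.monomial (m 1) (Polynomial.monomial (m 0) c)) := by
  unfold Phi
  rw [MvPolynomial.coe_eval₂Hom, MvPolynomial.eval₂_monomial, Finsupp.prod_fintype _ _ (by simp)]
  simp only [Fin.prod_univ_three, vars, emb, Matrix.cons_val_zero, Matrix.cons_val_one,
    Matrix.cons_val]
  simp only [← Polynomial.C_mul_X_pow_eq_monomial, RingHom.comp_apply, map_mul, map_pow]
  ring

theorem Phi_coeff (F : MvPolynomial (Fin 3) k) (m : Fin 3 →₀ ℕ) :
    (((Phi k F).coeff (m 2)).coeff (m 1)).coeff (m 0) = F.coeff m := by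
  induction F using MvPolynomial.induction_on' with
  | monomial u c =>
    rw [Phi_monomial, Polynomial.coeff_monomial, MvPolynomial.coeff_monomial]
    by_cases h2 : u 2 = m 2
    · rw [if_pos h2, Polynomial.coeff_monomial]
      by_cases h1 : u 1 = m 1
      · rw [if_pos h1, Polynomial.coeff_monomial]
        by_cases h0 : u 0 = m 0
        · rw [if_pos h0, if_pos]
          ext i
          fin_cases i
          · exact h0
          · exact h1
          · exact h2
        · rw [if_neg h0, if_neg]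
          rintro rfl
          exact h0 rfl
      · rw [if_neg h1, if_neg, Polynomial.coeff_zero]
        rintro rfl
        exact h1 rfl
    · rw [if_neg h2, if_neg, Polynomial.coeff_zero, Polynomial.coeff_zero]
      rintro rfl
      exact h2 rfl
  | add p q hp hq =>
    rw [map_add, Polynomial.coeff_add, Polynomial.coeff_add, Polynomial.coeff_add, hp, hq,
      MvPolynomial.coeff_add]

/-- the ring homomorphism `k[x, y, z] → k[x]`, `y, z ↦ 0` -/
noncomputable def ev0 (k : Type*) [Field k] : MvPolynomial (Fin 3) k →+* Polynomial k :=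
  (Polynomial.constantCoeff).comp ((Polynomial.constantCoeff).comp (Phi k))

theorem ev0_apply (F : MvPolynomial (Fin 3) k) : ev0 k F = ((Phi k F).coeff 0).coeff 0 := rfl

/-- the prime ideal `(y, z)` -/
noncomputable def P0 (k : Type*) [Field k] : Ideal (MvPolynomial (Fin 3) k) := RingHom.ker (ev0 k)

instance : (P0 k).IsPrime := RingHom.ker_isPrime _

theorem mem_P0 (F : MvPolynomial (Fin 3) k) : F ∈ P0 k ↔ ((Phi k F).coeff 0).coeff 0 = 0 := by
  unfold P0
  rw [RingHom.mem_ker, ev0_apply]

theorem X1_mem : (X 1 : MvPolynomial (Fin 3) k) ∈ P0 k := by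
  rw [mem_P0]
  simp [Phi, vars]

theorem X2_mem : (X 2 : MvPolynomial (Fin 3) k) ∈ P0 k := by
  rw [mem_P0]
  simp [Phi, vars]

theorem P0_eq : P0 k = Ideal.span ({X 1, X 2} : Set (MvPolynomial (Fin 3) k)) := by
  apply le_antisymm
  · intro F hF
    rw [mem_P0] at hF
    have h1 : ({X 1, X 2} : Set (MvPolynomial (Fin 3) k)) =
        X '' ({1, 2} : Set (Fin 3)) := by
      rw [Set.image_pair]
    rw [h1, mem_ideal_span_X_image]
    intro m hm
    by_contra hcon
    have h2 : m 1 = 0 := by
      by_contra h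
      exact hcon ⟨1, by simp, h⟩
    have h3 : m 2 = 0 := by
      by_contra h
      exact hcon ⟨2, by simp, h⟩
    have h4 := Phi_coeff F m
    rw [h2, h3, hF, Polynomial.coeff_zero] at h4
    exact (MvPolynomial.mem_support_iff.1 hm) h4.symm
  · rw [Ideal.span_le]
    rintro F (rfl | rfl)
    · exact X1_mem
    · exact X2_mem

theorem two_le_height {P : Ideal (MvPolynomial (Fin 3) k)} [P.IsPrime] {i j : Fin 3} (hij : i ≠ j)
    (hi : (X i : MvPolynomial (Fin 3) k) ∈ P) (hj : (X j : MvPolynomial (Fin 3) k) ∈ P) :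
    2 ≤ P.height := by
  have hp : (Ideal.span {(X i : MvPolynomial (Fin 3) k)}).IsPrime :=
    (Ideal.span_singleton_prime (MvPolynomial.X_ne_zero i)).2 MvPolynomial.X_prime
  have h1 : (⊥ : Ideal (MvPolynomial (Fin 3) k)) < Ideal.span {X i} := by
    rw [bot_lt_iff_ne_bot, Ne, Ideal.span_singleton_eq_bot]
    exact MvPolynomial.X_ne_zero i
  have h2 : Ideal.span {(X i : MvPolynomial (Fin 3) k)} < P := by
    refine lt_of_le_of_ne ((Ideal.span_singleton_le_iff_mem _).2 hi) ?_
    intro h
    rw [← h, Ideal.mem_span_singleton, MvPolynomial.X_dvd_X] at hj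
    exact hij hj
  have h3 := Ideal.height_add_one_le_of_lt_of_isPrime h1
  have h4 := Ideal.height_add_one_le_of_lt_of_isPrime h2
  calc (2 : ℕ∞) = 0 + 1 + 1 := by norm_num
    _ ≤ (⊥ : Ideal (MvPolynomial (Fin 3) k)).height + 1 + 1 := by gcongr; exact zero_le
    _ ≤ (Ideal.span {(X i : MvPolynomial (Fin 3) k)}).height + 1 := by gcongr
    _ ≤ P.height := h4

theorem height_P0 : (P0 k).height = 2 := by
  apply le_antisymm
  · have h1 : P0 k ∈ (Ideal.span ({X 1, X 2} : Set (MvPolynomial (Fin 3) k))).minimalPrimes := by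
      rw [← P0_eq, Ideal.minimalPrimes_eq_subsingleton_self]
      exact Set.mem_singleton _
    have h2 := Ideal.height_le_card_of_mem_minimalPrimes_span (Set.toFinite _) h1
    refine h2.trans ?_
    have h3 := Set.ncard_insert_le (X 1 : MvPolynomial (Fin 3) k) {X 2}
    rw [Set.ncard_singleton] at h3
    exact_mod_cast h3
  · exact two_le_height (i := 1) (j := 2) (by decide) X1_mem X2_mem

/-- an ideal contained in `(y, z)` all of whose prime overideals contain two variables -/
theorem height_eq_two {I : Ideal (MvPolynomial (Fin 3) k)} (h0 : I ≤ P0 k)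
    (h : ∀ P : Ideal (MvPolynomial (Fin 3) k), P.IsPrime → I ≤ P →
      ∃ i j : Fin 3, i ≠ j ∧ (X i : MvPolynomial (Fin 3) k) ∈ P ∧
        (X j : MvPolynomial (Fin 3) k) ∈ P) : I.height = 2 := by
  apply le_antisymm
  · exact (Ideal.height_mono h0).trans height_P0.le
  · rw [Ideal.height_eq_inf_minimalPrimes]
    refine le_iInf₂ fun J hJ => ?_
    have := hJ.isPrime
    obtain ⟨i, j, hij, hi, hj⟩ := h J this hJ.1.2
    exact two_le_height hij hi hj

/-- a prime ideal of height two containing `y, z` does not contain `x` -/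
theorem X0_notMem {P : Ideal (MvPolynomial (Fin 3) k)} [P.IsPrime] (hP : P.height = 2)
    (h1 : (X 1 : MvPolynomial (Fin 3) k) ∈ P) (h2 : (X 2 : MvPolynomial (Fin 3) k) ∈ P) :
    (X 0 : MvPolynomial (Fin 3) k) ∉ P := by
  intro h0
  have hle : P0 k ≤ P := by
    rw [P0_eq, Ideal.span_le]
    rintro F (rfl | rfl)
    · exact h1
    · exact h2
  have hlt : P0 k < P := by
    refine lt_of_le_of_ne hle fun h => ?_
    rw [← h, mem_P0] at h0
    simp [Phi, vars] at h0
  have h3 := Ideal.height_add_one_le_of_lt_of_isPrime hlt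
  rw [height_P0, hP] at h3
  exact absurd h3 (by decide)

/-- the ideal `(y², z²)` -/
noncomputable def Q0 (k : Type*) [Field k] : Ideal (MvPolynomial (Fin 3) k) :=
  Ideal.span {X 1 ^ 2, X 2 ^ 2}

theorem mem_Q0 (F : MvPolynomial (Fin 3) k) :
    F ∈ Q0 k ↔ ∀ m ∈ F.support, 2 ≤ m 1 ∨ 2 ≤ m 2 := by
  have h1 : ({X 1 ^ 2, X 2 ^ 2} : Set (MvPolynomial (Fin 3) k)) =
      (fun s => monomial s (1 : k)) '' ({Finsupp.single 1 2, Finsupp.single 2 2} :
        Set (Fin 3 →₀ ℕ)) := by
    rw [Set.image_pair, MvPolynomial.X_pow_eq_monomial, MvPolynomial.X_pow_eq_monomial]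
  unfold Q0
  rw [h1, mem_ideal_span_monomial_image]
  refine forall₂_congr fun m _ => ?_
  simp

theorem Q0_coeff {F : MvPolynomial (Fin 3) k} (hF : F ∈ Q0 k) {p q : ℕ} (hp : p < 2)
    (hq : q < 2) : ((Phi k F).coeff q).coeff p = 0 := by
  rw [mem_Q0] at hF
  ext n
  have h1 := Phi_coeff F (Finsupp.single 0 n + Finsupp.single 1 p + Finsupp.single 2 q)
  simp only [Finsupp.coe_add, Pi.add_apply, Finsupp.single_apply] at h1
  simp only [Fin.isValue, show (0 : Fin 3) ≠ 2 by decide, if_false, show (1 : Fin 3) ≠ 2 by decide,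
    if_true, show (0 : Fin 3) ≠ 1 by decide, show (2 : Fin 3) ≠ 1 by decide,
    show (1 : Fin 3) ≠ 0 by decide, show (2 : Fin 3) ≠ 0 by decide, zero_add, add_zero] at h1
  rw [h1, Polynomial.coeff_zero]
  by_contra hne
  have h2 := hF _ (MvPolynomial.mem_support_iff.2 hne)
  simp only [Finsupp.coe_add, Pi.add_apply, Finsupp.single_apply] at h2
  simp only [Fin.isValue, show (0 : Fin 3) ≠ 2 by decide, if_false, show (1 : Fin 3) ≠ 2 by decide,
    if_true, show (0 : Fin 3) ≠ 1 by decide, show (2 : Fin 3) ≠ 1 by decide,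
    show (1 : Fin 3) ≠ 0 by decide, show (2 : Fin 3) ≠ 0 by decide, zero_add, add_zero] at h2
  omega

/-- `(y², z²)` is `(y, z)`-primary -/
theorem Q0_primary {s r : MvPolynomial (Fin 3) k} (hs : s ∉ P0 k) (h : s * r ∈ Q0 k) :
    r ∈ Q0 k := by
  rw [mem_P0] at hs
  have hr : ∀ p q : ℕ, p < 2 → q < 2 → ((Phi k r).coeff q).coeff p = 0 := by
    set a := Phi k s with ha
    set b := Phi k r with hb
    have h00 := Q0_coeff h (p := 0) (q := 0) (by norm_num) (by norm_num)
    have h10 := Q0_coeff h (p := 1) (q := 0) (by norm_num) (by norm_num)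
    have h01 := Q0_coeff h (p := 0) (q := 1) (by norm_num) (by norm_num)
    have h11 := Q0_coeff h (p := 1) (q := 1) (by norm_num) (by norm_num)
    rw [map_mul, ← ha, ← hb] at h00 h10 h01 h11
    rw [Polynomial.mul_coeff_zero, Polynomial.mul_coeff_zero] at h00
    rw [Polynomial.mul_coeff_zero, Polynomial.mul_coeff_one] at h10
    rw [Polynomial.mul_coeff_one, Polynomial.coeff_add, Polynomial.mul_coeff_zero,
      Polynomial.mul_coeff_zero] at h01
    rw [Polynomial.mul_coeff_one, Polynomial.coeff_add, Polynomial.mul_coeff_one,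
      Polynomial.mul_coeff_one] at h11
    have b00 : (b.coeff 0).coeff 0 = 0 := (mul_eq_zero.1 h00).resolve_left hs
    rw [b00, mul_zero, add_zero] at h10
    have b10 : (b.coeff 0).coeff 1 = 0 := (mul_eq_zero.1 h10).resolve_left hs
    rw [b00, mul_zero, add_zero] at h01
    have b01 : (b.coeff 1).coeff 0 = 0 := (mul_eq_zero.1 h01).resolve_left hs
    rw [b00, b10, b01, mul_zero, mul_zero, mul_zero, add_zero, add_zero, add_zero] at h11
    have b11 : (b.coeff 1).coeff 1 = 0 := (mul_eq_zero.1 h11).resolve_left hs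
    intro p q hp hq
    interval_cases p <;> interval_cases q <;> assumption
  rw [mem_Q0]
  intro m hm
  by_contra hcon
  push Not at hcon
  have h1 := Phi_coeff r m
  rw [hr _ _ hcon.1 hcon.2, Polynomial.coeff_zero] at h1
  exact (MvPolynomial.mem_support_iff.1 hm) h1.symm

theorem Q0_le : Q0 k ≤ P0 k := by
  unfold Q0
  rw [Ideal.span_le]
  rintro F (rfl | rfl)
  · exact Ideal.pow_mem_of_mem _ X1_mem 2 (by norm_num)
  · exact Ideal.pow_mem_of_mem _ X2_mem 2 (by norm_num)

end Pool.Agent.V7H49.SYL
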