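import Pool.Agent.V7H49.SYL.A

/-!
# Some coefficients of the elements of a Rees ideal vanish
-/

set_option autoImplicit false

open MvPolynomial

namespace Pool.Agent.V7H49.SYL

variable {k : Type*} [Field k]

/-- exponents -/
noncomputable def mono (a b c : ℕ) : Fin 3 →₀ ℕ :=
  Finsupp.single 0 a + Finsupp.single 1 b + Finsupp.single 2 c

theorem mono_zero (a b c : ℕ) : mono a b c 0 = a := by
  simp [mono]

theorem mono_one (a b c : ℕ) : mono a b c 1 = b := by
  simp [mono]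

theorem mono_two (a b c : ℕ) : mono a b c 2 = c := by
  simp [mono]

theorem mono_eta (m : Fin 3 →₀ ℕ) : mono (m 0) (m 1) (m 2) = m := by
  ext i
  fin_cases i
  · exact mono_zero _ _ _
  · exact mono_one _ _ _
  · exact mono_two _ _ _

theorem mono_sub (a b c a' b' c' : ℕ) :
    mono a b c - mono a' b' c' = mono (a - a') (b - b') (c - c') := by
  ext i
  fin_cases i
  · simp [Finsupp.tsub_apply, mono_zero]
  · simp [Finsupp.tsub_apply, mono_one]
  · simp [Finsupp.tsub_apply, mono_two]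

theorem mono_le (a b c a' b' c' : ℕ) :
    mono a b c ≤ mono a' b' c' ↔ a ≤ a' ∧ b ≤ b' ∧ c ≤ c' := by
  constructor
  · intro h
    have h0 := h 0
    have h1 := h 1
    have h2 := h 2
    rw [mono_zero, mono_zero] at h0
    rw [mono_one, mono_one] at h1
    rw [mono_two, mono_two] at h2
    exact ⟨h0, h1, h2⟩
  · rintro ⟨h0, h1, h2⟩ i
    fin_cases i
    · simpa [mono_zero] using h0
    · simpa [mono_one] using h1
    · simpa [mono_two] using h2

theorem monomial_mono {A : Type*} [CommSemiring A] (a b c : ℕ) :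
    (monomial (mono a b c) (1 : A)) = X 0 ^ a * X 1 ^ b * X 2 ^ c := by
  unfold mono
  rw [MvPolynomial.X_pow_eq_monomial, MvPolynomial.X_pow_eq_monomial,
    MvPolynomial.X_pow_eq_monomial, MvPolynomial.monomial_mul, MvPolynomial.monomial_mul]
  simp

theorem coeff_mul_mono {A : Type*} [CommSemiring A] (F : MvPolynomial (Fin 3) A)
    (a b c a' b' c' : ℕ) :
    coeff (mono a b c) (F * (X 0 ^ a' * X 1 ^ b' * X 2 ^ c')) =
      if a' ≤ a ∧ b' ≤ b ∧ c' ≤ c then coeff (mono (a - a') (b - b') (c - c')) F else 0 := by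
  rw [← monomial_mono, MvPolynomial.coeff_mul_monomial', mono_sub, mul_one]
  exact if_congr (mono_le _ _ _ _ _ _) rfl rfl

/-- the three minors of the example -/
noncomputable def D (k : Type*) [Field k] (i : Fin 3) : MvPolynomial (Fin 3) k :=
  if i = 0 then X 0 * (X 2 ^ 6 - X 1 ^ 6) else
    if i = 1 then -(X 1 * X 2 ^ 6) else X 1 ^ 5 * X 2 ^ 2

theorem D_zero : D k 0 = X 0 * (X 2 ^ 6 - X 1 ^ 6) := rfl
theorem D_one : D k 1 = -(X 1 * X 2 ^ 6) := rfl
theorem D_two : D k 2 = X 1 ^ 5 * X 2 ^ 2 := rfl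

/-- the ring homomorphism `S → R[T]`, `t_i ↦ D_i T` -/
noncomputable def psi (k : Type*) [Field k] :
    MvPolynomial (Fin 3) (MvPolynomial (Fin 3) k) →ₐ[MvPolynomial (Fin 3) k]
      Polynomial (MvPolynomial (Fin 3) k) :=
  MvPolynomial.aeval fun i => Polynomial.C (D k i) * Polynomial.X

theorem psi_coeff (F : MvPolynomial (Fin 3) (MvPolynomial (Fin 3) k)) (j : ℕ) :
    (psi k F).coeff j = ∑ β ∈ F.support, if β 0 + β 1 + β 2 = j then
      F.coeff β * (D k 0 ^ β 0 * D k 1 ^ β 1 * D k 2 ^ β 2) else 0 := by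
  unfold psi
  rw [MvPolynomial.aeval_def, MvPolynomial.eval₂_eq', Polynomial.finsetSum_coeff]
  refine Finset.sum_congr rfl fun β _ => ?_
  have h1 : (algebraMap (MvPolynomial (Fin 3) k) (Polynomial (MvPolynomial (Fin 3) k)))
      (F.coeff β) * ∏ i, (Polynomial.C (D k i) * Polynomial.X) ^ β i =
      Polynomial.C (F.coeff β * (D k 0 ^ β 0 * D k 1 ^ β 1 * D k 2 ^ β 2)) *
        Polynomial.X ^ (β 0 + β 1 + β 2) := by
    rw [Fin.prod_univ_three, Polynomial.algebraMap_eq]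
    simp only [map_mul, map_pow]
    ring
  rw [h1, Polynomial.coeff_C_mul_X_pow]
  simp only [eq_comm]

/-- the coefficient of `x^A y^B z^C T^j` of the image -/
theorem psi_coeff_coeff (F : MvPolynomial (Fin 3) (MvPolynomial (Fin 3) k)) (j : ℕ)
    (m : Fin 3 →₀ ℕ) (β₀ : Fin 3 →₀ ℕ) (h₀ : β₀ 0 + β₀ 1 + β₀ 2 = j)
    (h : ∀ β : Fin 3 →₀ ℕ, β ≠ β₀ → β 0 + β 1 + β 2 = j →
      coeff m (F.coeff β * (D k 0 ^ β 0 * D k 1 ^ β 1 * D k 2 ^ β 2)) = 0) :
    coeff m ((psi k F).coeff j) =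
      coeff m (F.coeff β₀ * (D k 0 ^ β₀ 0 * D k 1 ^ β₀ 1 * D k 2 ^ β₀ 2)) := by
  rw [psi_coeff, MvPolynomial.coeff_sum, Finset.sum_eq_single β₀, if_pos h₀]
  · intro β _ hβ
    by_cases h1 : β 0 + β 1 + β 2 = j
    · rw [if_pos h1]
      exact h β hβ h1
    · rw [if_neg h1, MvPolynomial.coeff_zero]
  · intro h1
    rw [MvPolynomial.notMem_support_iff.1 h1]
    simp

theorem D_pow (p q r : ℕ) : D k 0 ^ p * D k 1 ^ q * D k 2 ^ r =
    ∑ l ∈ Finset.range (p + 1), C ((-1 : k) ^ (l + q) * (p.choose l : k)) *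
      (X 0 ^ p * X 1 ^ (q + 5 * r + 6 * l) * X 2 ^ (6 * q + 2 * r + 6 * (p - l))) := by
  rw [D_zero, D_one, D_two, mul_pow, sub_eq_neg_add, add_pow]
  rw [Finset.mul_sum, Finset.sum_mul, Finset.sum_mul]
  refine Finset.sum_congr rfl fun l _ => ?_
  simp only [map_mul, map_pow, map_neg, map_one, map_natCast]
  have e1 : (-(X 1 : MvPolynomial (Fin 3) k) ^ 6) ^ l = (-1) ^ l * X 1 ^ (6 * l) := by
    rw [neg_pow, ← pow_mul]
  have e2 : (-((X 1 : MvPolynomial (Fin 3) k) * X 2 ^ 6)) ^ q =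
      (-1) ^ q * (X 1 ^ q * X 2 ^ (6 * q)) := by
    rw [neg_pow, mul_pow, ← pow_mul]
  have e3 : ((X 2 : MvPolynomial (Fin 3) k) ^ 6) ^ (p - l) = X 2 ^ (6 * (p - l)) := by
    rw [← pow_mul]
  have e4 : ((X 1 : MvPolynomial (Fin 3) k) ^ 5 * X 2 ^ 2) ^ r =
      X 1 ^ (5 * r) * X 2 ^ (2 * r) := by
    rw [mul_pow, ← pow_mul, ← pow_mul]
  rw [e1, e2, e3, e4]
  ring

theorem coeff_eq_zero (F : MvPolynomial (Fin 3) k) (a b c p q r : ℕ)
    (h : ∀ l ≤ p, ¬ (p ≤ a ∧ q + 5 * r + 6 * l ≤ b ∧ 6 * q + 2 * r + 6 * (p - l) ≤ c)) :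
    coeff (mono a b c) (F * (D k 0 ^ p * D k 1 ^ q * D k 2 ^ r)) = 0 := by
  rw [D_pow, Finset.mul_sum, MvPolynomial.coeff_sum]
  refine Finset.sum_eq_zero fun l hl => ?_
  rw [mul_left_comm, MvPolynomial.coeff_C_mul, coeff_mul_mono,
    if_neg (h l (Nat.lt_succ_iff.1 (Finset.mem_range.1 hl))), mul_zero]

theorem coeff_two_pow (F : MvPolynomial (Fin 3) k) (a b c r : ℕ) (hb : 5 * r ≤ b)
    (hc : 2 * r ≤ c) :
    coeff (mono a b c) (F * (D k 0 ^ 0 * D k 1 ^ 0 * D k 2 ^ r)) =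
      coeff (mono a (b - 5 * r) (c - 2 * r)) F := by
  rw [D_pow]
  simp only [zero_add, Finset.range_one, Finset.sum_singleton, pow_zero, Nat.choose_self,
    Nat.cast_one, mul_one, map_one, one_mul, mul_zero, add_zero, Nat.sub_zero]
  have h1 := coeff_mul_mono F a b c 0 (5 * r) (2 * r)
  rw [pow_zero, one_mul, if_pos ⟨Nat.zero_le _, hb, hc⟩, Nat.sub_zero] at h1
  exact h1

/-- vanishing coefficients -/
theorem vanish {F : MvPolynomial (Fin 3) (MvPolynomial (Fin 3) k)} (hF : psi k F = 0) :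
    coeff (mono 1 0 0) (F.coeff (mono 0 0 3)) = 0 ∧
    coeff (mono 0 1 0) (F.coeff (mono 0 0 3)) = 0 ∧
    coeff (mono 2 0 0) (F.coeff (mono 0 0 2)) = 0 ∧
    coeff (mono 1 1 0) (F.coeff (mono 0 0 2)) = 0 := by
  have key : ∀ (j : ℕ) (m : Fin 3 →₀ ℕ), coeff m ((psi k F).coeff j) = 0 := by
    intro j m
    rw [hF, Polynomial.coeff_zero, MvPolynomial.coeff_zero]
  have ne : ∀ (β : Fin 3 →₀ ℕ) (a b c : ℕ), β ≠ mono a b c → ¬ (β 0 = a ∧ β 1 = b ∧ β 2 = c) := by
    rintro β a b c h ⟨rfl, rfl, rfl⟩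
    exact h (mono_eta β).symm
  have h1 : coeff (mono 1 0 0) (F.coeff (mono 0 0 3)) = 0 := by
    have h := psi_coeff_coeff F 3 (mono 1 15 6) (mono 0 0 3)
      (by rw [mono_zero, mono_one, mono_two]) (fun β hβ hs => by
        refine coeff_eq_zero _ _ _ _ _ _ _ fun l hl => ?_
        have := ne β _ _ _ hβ
        rintro ⟨c1, c2, c3⟩
        have q0 : β 1 = 0 := by omega
        have p0 : β 0 = l := by omega
        have r0 : β 2 ≤ 3 := by omega
        interval_cases h2 : β 2 <;> omega)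
    rw [key, mono_zero, mono_one, mono_two, coeff_two_pow _ _ _ _ _ (by norm_num)
      (by norm_num)] at h
    exact h.symm
  have h2 : coeff (mono 0 1 0) (F.coeff (mono 0 0 3)) = 0 := by
    have h := psi_coeff_coeff F 3 (mono 0 16 6) (mono 0 0 3)
      (by rw [mono_zero, mono_one, mono_two]) (fun β hβ hs => by
        refine coeff_eq_zero _ _ _ _ _ _ _ fun l hl => ?_
        have := ne β _ _ _ hβ
        rintro ⟨c1, c2, c3⟩
        have q0 : β 1 = 0 := by omega
        have p0 : β 0 = l := by omega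
        have r0 : β 2 ≤ 3 := by omega
        interval_cases h2 : β 2 <;> omega)
    rw [key, mono_zero, mono_one, mono_two, coeff_two_pow _ _ _ _ _ (by norm_num)
      (by norm_num)] at h
    exact h.symm
  have h3 : coeff (mono 2 0 0) (F.coeff (mono 0 0 2)) = 0 := by
    have h := psi_coeff_coeff F 2 (mono 2 10 4) (mono 0 0 2)
      (by rw [mono_zero, mono_one, mono_two]) (fun β hβ hs => by
        refine coeff_eq_zero _ _ _ _ _ _ _ fun l hl => ?_
        have := ne β _ _ _ hβ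
        rintro ⟨c1, c2, c3⟩
        have q0 : β 1 = 0 := by omega
        have p0 : β 0 = l := by omega
        have r0 : β 2 ≤ 3 := by omega
        interval_cases h2 : β 2 <;> omega)
    rw [key, mono_zero, mono_one, mono_two, coeff_two_pow _ _ _ _ _ (by norm_num)
      (by norm_num)] at h
    exact h.symm
  have e1 : ∀ G : MvPolynomial (Fin 3) k, G * (D k 0 ^ 1 * D k 1 ^ 0 * D k 2 ^ 1) =
      G * (X 0 ^ 1 * X 1 ^ 5 * X 2 ^ 8) - G * (X 0 ^ 1 * X 1 ^ 11 * X 2 ^ 2) := by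
    intro G
    rw [D_zero, D_one, D_two]
    ring
  have h4 : coeff (mono 0 0 2) (F.coeff (mono 1 0 1)) = 0 := by
    have h := psi_coeff_coeff F 2 (mono 1 5 10) (mono 1 0 1)
      (by rw [mono_zero, mono_one, mono_two]) (fun β hβ hs => by
        refine coeff_eq_zero _ _ _ _ _ _ _ fun l hl => ?_
        have := ne β _ _ _ hβ
        rintro ⟨c1, c2, c3⟩
        have l0 : l = 0 := by omega
        have r0 : β 2 ≤ 1 := by omega
        have q0 : β 1 ≤ 1 := by omega
        subst l0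
        interval_cases h2 : β 2 <;> interval_cases h3 : β 1 <;> omega)
    rw [key, mono_zero, mono_one, mono_two, e1, MvPolynomial.coeff_sub, coeff_mul_mono,
      coeff_mul_mono, if_pos (by norm_num), if_neg (by norm_num), sub_zero] at h
    exact h.symm
  have h5 : coeff (mono 1 1 0) (F.coeff (mono 0 0 2)) = 0 := by
    have h := psi_coeff_coeff F 2 (mono 1 11 4) (mono 0 0 2)
      (by rw [mono_zero, mono_one, mono_two]) (fun β hβ hs => by
        by_cases hβ' : β = mono 1 0 1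
        · rw [hβ', mono_zero, mono_one, mono_two, e1, MvPolynomial.coeff_sub, coeff_mul_mono,
            coeff_mul_mono, if_neg (by norm_num), if_pos (by norm_num), zero_sub, neg_eq_zero]
          exact h4
        · refine coeff_eq_zero _ _ _ _ _ _ _ fun l hl => ?_
          have := ne β _ _ _ hβ
          have := ne β _ _ _ hβ'
          rintro ⟨c1, c2, c3⟩
          have q0 : β 1 = 0 := by omega
          have p0 : β 0 = l := by omega
          have r0 : β 2 ≤ 3 := by omega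
          interval_cases h2 : β 2 <;> omega)
    rw [key, mono_zero, mono_one, mono_two, coeff_two_pow _ _ _ _ _ (by norm_num)
      (by norm_num)] at h
    exact h.symm
  exact ⟨h1, h2, h3, h5⟩

end Pool.Agent.V7H49.SYL
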